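import Mathlib

set_option autoImplicit false

namespace Pool.Agent.Results.MP_f02465_al.StepBound

/-! ## The algorithm of the problem, verbatim -/

/-- The four letters `a, b, a⁻¹, b⁻¹` of the free group `F₂ = FreeGroup (Fin 2)`: the letter
`(i, true)` is the `i`-th generator and `(i, false)` is its inverse. -/
abbrev Letter : Type := Fin 2 × Bool

/-- The element of `F₂` given by a letter. -/
def letterElt (h : Letter) : FreeGroup (Fin 2) := FreeGroup.mk [h]

/-- The directed edges of the coset graph of `F₂ / H`: one edge for every left coset `C = rH` and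
every letter `h`; the edge `(C, h)` goes from `C = rH` to `h • C = hrH`. -/
abbrev Edge (H : Subgroup (FreeGroup (Fin 2))) : Type := (FreeGroup (Fin 2) ⧸ H) × Letter

/-- The coset from which an edge leaves. -/
def src {H : Subgroup (FreeGroup (Fin 2))} (e : Edge H) : FreeGroup (Fin 2) ⧸ H := e.1

/-- The coset at which an edge ends. -/
def tgt {H : Subgroup (FreeGroup (Fin 2))} (e : Edge H) : FreeGroup (Fin 2) ⧸ H :=
  letterElt e.2 • e.1

/-- The set `E_i` of edges highlighted at step `i ≥ 1` (the value at `0` is a dummy):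
`E_1` is the set of all edges leaving `yH`, and `E_{i+1}` is the set of edges `tH → sH` such that
some edge of `E_i` ends at `tH` and no edge of `E_i` goes from `sH` to `tH`. -/
def E (H : Subgroup (FreeGroup (Fin 2))) (y : FreeGroup (Fin 2)) : ℕ → Set (Edge H)
  | 0 => ∅
  | 1 => {e | src e = (y : FreeGroup (Fin 2) ⧸ H)}
  | (i + 2) => {e | (∃ f ∈ E H y (i + 1), tgt f = src e) ∧
      ¬ ∃ f ∈ E H y (i + 1), src f = tgt e ∧ tgt f = src e}

/-- `N(H, y)`, the largest `i` with `E_i` nonempty. -/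
noncomputable def N (H : Subgroup (FreeGroup (Fin 2))) (y : FreeGroup (Fin 2)) : ℕ :=
  sSup {i | (E H y i).Nonempty}

/-! ## The abstract flooding process

`X` is the set of vertices, `Ξ` the set of letters, `act h x` the endpoint of the edge with
letter `h` that leaves `x`, and `inv` the inversion of letters. -/

section Abstract

variable {X Ξ : Type} (act : Ξ → X → X) {inv : Ξ → Ξ}

/-- vertices reached by a walk of length exactly `i` from `y` -/
def R (y : X) : ℕ → Set X
  | 0 => {y}
  | (i + 1) => {C | ∃ D ∈ R y i, ∃ h, act h D = C}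

/-- vertices reached by a walk of length `i` but by no shorter walk of the same parity -/
def L (y : X) : ℕ → Set X
  | 0 => R act y 0
  | 1 => R act y 1
  | (i + 2) => R act y (i + 2) \ R act y i

/-- the arcs from layer `i` to layer `i+1` -/
def A (y : X) (i : ℕ) : Set (X × Ξ) := {p | p.1 ∈ L act y i ∧ act p.2 p.1 ∈ L act y (i + 1)}

/-- the arcs from layer `i+1` to layer `i` -/
def B (y : X) (i : ℕ) : Set (X × Ξ) := {p | p.1 ∈ L act y (i + 1) ∧ act p.2 p.1 ∈ L act y i}

/-- the abstract process -/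
def F (y : X) : ℕ → Set (X × Ξ)
  | 0 => ∅
  | 1 => {e | e.1 = y}
  | (i + 2) => {e | (∃ f ∈ F y (i + 1), act f.2 f.1 = e.1) ∧
      ¬ ∃ f ∈ F y (i + 1), f.1 = act e.2 e.1 ∧ act f.2 f.1 = e.1}

variable {act}

lemma L_sub_R (y : X) (i : ℕ) : L act y i ⊆ R act y i := by
  match i with
  | 0 => exact le_rfl
  | 1 => exact le_rfl
  | (i + 2) => exact fun x hx => hx.1

lemma R_mono2 (hinv : ∀ h x, act (inv h) (act h x) = x) [Nonempty Ξ] (y : X) (i : ℕ) :
    R act y i ⊆ R act y (i + 2) := by
  intro C hC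
  obtain ⟨h⟩ := ‹Nonempty Ξ›
  exact ⟨act h C, ⟨C, hC, h, rfl⟩, inv h, hinv h C⟩

lemma R_succ (y : X) (i : ℕ) {C : X} (hC : C ∈ R act y i) (h : Ξ) : act h C ∈ R act y (i + 1) :=
  ⟨C, hC, h, rfl⟩

lemma R_succ' (hinv : ∀ h x, act (inv h) (act h x) = x) (y : X) (i : ℕ) {C : X} {h : Ξ}
    (hC : act h C ∈ R act y i) : C ∈ R act y (i + 1) := by
  have := R_succ y i hC (inv h)
  rwa [hinv] at this

/-- neighbours of a layer-`i+1` vertex are in the layers `i` and `i+2` -/
lemma nbr (hinv : ∀ h x, act (inv h) (act h x) = x) (y : X) (i : ℕ) {C : X}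
    (hC : C ∈ L act y (i + 1)) (h : Ξ) :
    (act h C ∈ L act y i ↔ act h C ∈ R act y i) ∧
      (act h C ∈ L act y (i + 2) ↔ act h C ∉ R act y i) := by
  constructor
  · constructor
    · intro h'; exact L_sub_R y i h'
    · intro h'
      match i with
      | 0 => exact h'
      | 1 => exact h'
      | (i + 2) =>
        refine ⟨h', fun h'' => ?_⟩
        exact hC.2 (R_succ' hinv y i h'')
  · constructor
    · intro h'; exact h'.2
    · intro h'
      exact ⟨R_succ y (i + 1) (L_sub_R y _ hC) h, h'⟩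

lemma nbr_zero (y : X) {C : X} (hC : C ∈ L act y 0) (h : Ξ) : act h C ∈ L act y 1 :=
  R_succ y 0 hC h

/-- every vertex of layer `i+1` has a neighbour in layer `i` -/
lemma pred (y : X) (i : ℕ) {C : X} (hC : C ∈ L act y (i + 1)) :
    ∃ D ∈ L act y i, ∃ h, act h D = C := by
  obtain ⟨D, hD, h, hDC⟩ := L_sub_R y _ hC
  refine ⟨D, ?_, h, hDC⟩
  match i with
  | 0 => exact hD
  | 1 => exact hD
  | (i + 2) =>
    refine ⟨hD, fun hD' => ?_⟩
    exact hC.2 (hDC ▸ R_succ y i hD' h)

/-- The highlighted edges are exactly the arcs from one layer to the next. -/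
lemma F_eq (hinv : ∀ h x, act (inv h) (act h x) = x) (y : X) (i : ℕ) :
    F act y (i + 1) = A act y i := by
  induction i with
  | zero =>
    ext ⟨C, h⟩
    constructor
    · intro hC
      have hC' : C = y := hC
      subst hC'
      exact ⟨rfl, nbr_zero _ (show C ∈ L act C 0 from rfl) h⟩
    · intro hC
      exact hC.1
  | succ i ih =>
    ext ⟨C, h⟩
    have key : (∃ f ∈ F act y (i + 1), act f.2 f.1 = C) ↔ C ∈ L act y (i + 1) := by
      rw [ih]
      constructor
      · rintro ⟨⟨D, g⟩, hf, hfC⟩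
        have := hf.2
        rwa [hfC] at this
      · intro hC
        obtain ⟨D, hD, g, hg⟩ := pred y i hC
        exact ⟨(D, g), ⟨hD, by simpa [hg] using hC⟩, hg⟩
    constructor
    · rintro ⟨h1, h2⟩
      have hC : C ∈ L act y (i + 1) := key.1 h1
      refine ⟨hC, ?_⟩
      rw [(nbr hinv y i hC h).2, ← (nbr hinv y i hC h).1]
      intro hS
      apply h2
      rw [ih]
      exact ⟨(act h C, inv h), ⟨hS, by simpa [hinv] using hC⟩, rfl, hinv h C⟩
    · rintro ⟨hC, hS⟩
      refine ⟨key.2 hC, ?_⟩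
      rintro ⟨⟨D, g⟩, hf, hD, -⟩
      rw [ih] at hf
      have h1 : D ∈ L act y i := hf.1
      have hD' : D = act h C := hD
      subst hD'
      exact ((nbr hinv y i hC h).2.1 hS) ((nbr hinv y i hC h).1.1 h1)

lemma inv2 (hinv : ∀ h x, act (inv h) (act h x) = x) (hii : ∀ h, inv (inv h) = h) (h : Ξ)
    (x : X) : act h (act (inv h) x) = x := by
  have := hinv (inv h) x
  rwa [hii] at this

/-- reversing arcs -/
lemma card_A_eq_B (hinv : ∀ h x, act (inv h) (act h x) = x) (hii : ∀ h, inv (inv h) = h)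
    (y : X) (i : ℕ) : (A act y i).ncard = (B act y i).ncard := by
  apply Set.ncard_congr (fun p _ => (act p.2 p.1, inv p.2))
  · rintro ⟨C, h⟩ ⟨h1, h2⟩
    exact ⟨h2, by simpa [hinv] using h1⟩
  · rintro ⟨C, h⟩ ⟨D, g⟩ - - heq
    simp only [Prod.mk.injEq] at heq
    obtain ⟨h1, h2⟩ := heq
    have hgh : h = g := by rw [← hii h, ← hii g, h2]
    subst hgh
    have : C = D := by rw [← hinv h C, ← hinv h D, h1]
    rw [this]
  · rintro ⟨C, h⟩ ⟨h1, h2⟩
    refine ⟨(act h C, inv h), ⟨h2, ?_⟩, ?_⟩
    · simpa [hinv] using h1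
    · simp [hinv, hii]

/-- every cut is a multiple of the degree -/
lemma card_zero [Finite X] [Finite Ξ] (y : X) :
    (A act y 0).ncard = Nat.card Ξ * (L act y 0).ncard := by
  have h1 : A act y 0 = (L act y 0) ×ˢ (Set.univ : Set Ξ) := by
    ext ⟨C, h⟩
    constructor
    · intro hC; exact ⟨hC.1, trivial⟩
    · intro hC; exact ⟨hC.1, nbr_zero y hC.1 h⟩
  rw [h1, Set.ncard_prod, Set.ncard_univ, mul_comm]

lemma card_succ [Finite X] [Finite Ξ] (hinv : ∀ h x, act (inv h) (act h x) = x)
    (hii : ∀ h, inv (inv h) = h) (y : X) (i : ℕ) :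
    (A act y (i + 1)).ncard + (A act y i).ncard = Nat.card Ξ * (L act y (i + 1)).ncard := by
  have h1 : (L act y (i + 1)) ×ˢ (Set.univ : Set Ξ) = A act y (i + 1) ∪ B act y i := by
    ext ⟨C, h⟩
    constructor
    · rintro ⟨hC, -⟩
      have hC' : C ∈ L act y (i + 1) := hC
      by_cases hS : act h C ∈ R act y i
      · right; exact ⟨hC', (nbr hinv y i hC' h).1.2 hS⟩
      · left; exact ⟨hC', (nbr hinv y i hC' h).2.2 hS⟩
    · rintro (hC | hC)
      · exact ⟨hC.1, trivial⟩
      · exact ⟨hC.1, trivial⟩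
  have h2 : Disjoint (A act y (i + 1)) (B act y i) := by
    rw [Set.disjoint_left]
    rintro ⟨C, h⟩ h3 h4
    have hC : C ∈ L act y (i + 1) := h3.1
    exact ((nbr hinv y i hC h).2.1 h3.2) ((nbr hinv y i hC h).1.1 h4.2)
  rw [card_A_eq_B hinv hii y i, ← Set.ncard_union_eq h2 (Set.toFinite _) (Set.toFinite _), ← h1,
    Set.ncard_prod, Set.ncard_univ, mul_comm]

lemma dvd_card [Finite X] [Finite Ξ] (hinv : ∀ h x, act (inv h) (act h x) = x)
    (hii : ∀ h, inv (inv h) = h) (y : X) (i : ℕ) : Nat.card Ξ ∣ (A act y i).ncard := by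
  induction i with
  | zero => rw [card_zero]; exact dvd_mul_right _ _
  | succ i ih =>
    have h1 := card_succ hinv hii y i
    exact (Nat.dvd_add_left ih).1 (h1 ▸ dvd_mul_right _ _)

/-- if layer `i+1` has an arc to layer `i+2` then layer `i` has an arc to layer `i+1` -/
lemma A_nonempty_pred (y : X) (i : ℕ) (h : (A act y (i + 1)).Nonempty) :
    (A act y i).Nonempty := by
  obtain ⟨⟨C, g⟩, hC, -⟩ := h
  obtain ⟨D, hD, g', hg'⟩ := pred y i hC
  exact ⟨(D, g'), hD, by simpa [hg'] using hC⟩

/-- an inner layer has at least two vertices -/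
lemma two_le_L [Finite X] [Finite Ξ] (hinv : ∀ h x, act (inv h) (act h x) = x)
    (hii : ∀ h, inv (inv h) = h) (y : X) (i : ℕ) (h : (A act y (i + 1)).Nonempty) :
    2 ≤ (L act y (i + 1)).ncard := by
  have h0 := A_nonempty_pred y i h
  have hpos : 0 < Nat.card Ξ := by
    obtain ⟨⟨C, g⟩, -⟩ := h
    haveI : Nonempty Ξ := ⟨g⟩
    exact Nat.card_pos
  have h1 : 0 < (A act y (i + 1)).ncard := (Set.ncard_pos (Set.toFinite _)).2 h
  have h2 : 0 < (A act y i).ncard := (Set.ncard_pos (Set.toFinite _)).2 h0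
  have h3 := Nat.le_of_dvd h1 (dvd_card hinv hii y (i + 1))
  have h4 := Nat.le_of_dvd h2 (dvd_card hinv hii y i)
  have h5 := card_succ hinv hii y i
  by_contra hlt
  have h6 : (L act y (i + 1)).ncard ≤ 1 := by omega
  have h7 : Nat.card Ξ * (L act y (i + 1)).ncard ≤ Nat.card Ξ * 1 := Nat.mul_le_mul_left _ h6
  omega

/-- the sum of the sizes of the layers `0, …, m` -/
noncomputable def s (act : Ξ → X → X) (y : X) : ℕ → ℕ
  | 0 => 1
  | (m + 1) => s act y m + (L act y (m + 1)).ncard

lemma s_succ [Finite X] [Nonempty Ξ] (hinv : ∀ h x, act (inv h) (act h x) = x) (y : X) (m : ℕ) :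
    s act y (m + 1) = (R act y (m + 1)).ncard + (R act y m).ncard := by
  induction m with
  | zero =>
    change 1 + (R act y 1).ncard = (R act y 1).ncard + ({y} : Set X).ncard
    rw [Set.ncard_singleton, add_comm]
  | succ m ih =>
    change s act y (m + 1) + (R act y (m + 2) \ R act y m).ncard = _
    rw [ih, Set.ncard_sdiff (R_mono2 hinv y m) (Set.toFinite _)]
    have := Set.ncard_le_ncard (R_mono2 hinv y m) (Set.toFinite _)
    have h2 : R act y (m + 1 + 1) = R act y (m + 2) := rfl
    rw [h2]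
    omega

lemma s_lower [Finite X] [Finite Ξ] (hinv : ∀ h x, act (inv h) (act h x) = x)
    (hii : ∀ h, inv (inv h) = h) (y : X) (m : ℕ) (h : (A act y m).Nonempty) :
    2 * m + 1 ≤ s act y m := by
  induction m with
  | zero => exact le_rfl
  | succ m ih =>
    have h1 := ih (A_nonempty_pred y m h)
    have h2 := two_le_L hinv hii y m h
    change 2 * (m + 1) + 1 ≤ s act y m + (L act y (m + 1)).ncard
    omega

/-- The main bound: the arcs from layer `m` to layer `m+1` can only exist if `m + 1 ≤ |X|`. -/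
lemma main_bound [Finite X] [Finite Ξ] (hinv : ∀ h x, act (inv h) (act h x) = x)
    (hii : ∀ h, inv (inv h) = h) (y : X) (m : ℕ) (h : (A act y m).Nonempty) :
    m + 1 ≤ Nat.card X := by
  have h1 := s_lower hinv hii y m h
  obtain ⟨⟨C, g⟩, hC, hC'⟩ := h
  haveI : Nonempty Ξ := ⟨g⟩
  have h2 : 0 < (L act y (m + 1)).ncard := (Set.ncard_pos (Set.toFinite _)).2 ⟨_, hC'⟩
  have h3 : s act y m + (L act y (m + 1)).ncard = _ := s_succ hinv y m
  have h4 := Set.ncard_le_card (R act y (m + 1))
  have h5 := Set.ncard_le_card (R act y m)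
  omega

end Abstract

/-! ## Back to the coset graph -/

/-- inversion of letters -/
def linv (h : Letter) : Letter := (h.1, !h.2)

lemma linv_linv (h : Letter) : linv (linv h) = h := by simp [linv]

lemma letterElt_linv (h : Letter) : letterElt (linv h) * letterElt h = 1 := by
  have : letterElt (linv h) = (letterElt h)⁻¹ := by
    simp [letterElt, linv, FreeGroup.inv_mk, FreeGroup.invRev]
  rw [this, inv_mul_cancel]

lemma E_eq_F (H : Subgroup (FreeGroup (Fin 2))) (y : FreeGroup (Fin 2)) (i : ℕ) :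
    E H y i = F (fun (h : Letter) (C : FreeGroup (Fin 2) ⧸ H) => letterElt h • C)
      (y : FreeGroup (Fin 2) ⧸ H) i := by
  match i with
  | 0 => rfl
  | 1 => rfl
  | (i + 2) =>
    have ih := E_eq_F H y (i + 1)
    simp only [E, F, ih]
    rfl

theorem bound (H : Subgroup (FreeGroup (Fin 2))) [H.FiniteIndex] (y : FreeGroup (Fin 2)) (i : ℕ)
    (hi : H.index < i) : E H y i = ∅ := by
  match i with
  | 0 => rfl
  | (m + 1) =>
    rw [E_eq_F]
    have hinv : ∀ (h : Letter) (x : FreeGroup (Fin 2) ⧸ H),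
        letterElt (linv h) • (letterElt h • x) = x := by
      intro h x
      rw [smul_smul, letterElt_linv, one_smul]
    rw [F_eq (inv := linv) hinv]
    by_contra hne
    have hne' := Set.nonempty_iff_ne_empty.2 hne
    have := main_bound (inv := linv) hinv linv_linv _ m hne'
    have h2 : H.index = Nat.card (FreeGroup (Fin 2) ⧸ H) := rfl
    omega

/-- **Answer to Q1.** Let `H ≤ F₂` be a subgroup of finite index and `y ∈ F₂`. Then the
algorithm ends within `[F₂ : H]` steps: `E_i = ∅` for all `i > [F₂ : H]`, so that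
`N(H, y) ≤ [F₂ : H]`. (The hypothesis that `H` has an element of odd length is not needed.) -/
theorem result (H : Subgroup (FreeGroup (Fin 2))) (hH : H.FiniteIndex) (y : FreeGroup (Fin 2)) :
    (∀ i : ℕ, H.index < i → E H y i = ∅) ∧ N H y ≤ H.index := by
  refine ⟨fun i hi => bound H y i hi, ?_⟩
  apply csSup_le'
  intro i hi
  by_contra hlt
  have := bound H y i (not_le.1 hlt)
  have h2 : (E H y i).Nonempty := hi
  rw [this] at h2
  exact Set.not_nonempty_empty h2

end Pool.Agent.Results.MP_f02465_al.StepBound
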